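import Mathlib

/-!
# Homomorphisms from a symplectic plane to an orthogonal space: even dimension
-/

set_option autoImplicit false

namespace Pool.Agent.E8helper13.Par

/-- a nondegenerate alternating form exists only in even dimension -/
lemma even_of_alt {U : Type*} [AddCommGroup U] [Module ℂ U] [FiniteDimensional ℂ U]
    (B : U → U → ℂ) (hl : ∀ y (c : ℂ) x x', B (c • x + x') y = c * B x y + B x' y)
    (hr : ∀ x (c : ℂ) y y', B x (c • y + y') = c * B x y + B x y')
    (halt : ∀ x y, B x y = - B y x) (hnd : ∀ x, (∀ y, B x y = 0) → x = 0) :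
    Even (Module.finrank ℂ U) := by
  classical
  by_contra hodd
  rw [Nat.not_even_iff_odd] at hodd
  let b := Module.finBasis ℂ U
  let A : Matrix (Fin (Module.finrank ℂ U)) (Fin (Module.finrank ℂ U)) ℂ :=
    Matrix.of fun i j => B (b i) (b j)
  have hA : A.transpose = -A := by
    ext i j
    simp only [Matrix.transpose_apply, Matrix.neg_apply, A, Matrix.of_apply]
    exact halt _ _
  have hdet : A.det = 0 := by
    have h1 : A.transpose.det = A.det := Matrix.det_transpose A
    rw [hA, Matrix.det_neg, Fintype.card_fin, hodd.neg_one_pow] at h1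
    have h2 : (2 : ℂ) * A.det = 0 := by linear_combination -h1
    exact (mul_eq_zero.mp h2).resolve_left two_ne_zero
  obtain ⟨v, hv0, hv⟩ := Matrix.exists_vecMul_eq_zero_iff.mpr hdet
  have h0 : ∀ y, B 0 y = 0 := by
    intro y
    have := hl y 1 0 0
    simp only [smul_zero, add_zero, one_mul] at this
    linear_combination -this
  have hsum : ∀ (s : Finset (Fin (Module.finrank ℂ U))) (y : U),
      B (∑ i ∈ s, v i • b i) y = ∑ i ∈ s, v i * B (b i) y := by
    intro s y
    induction s using Finset.induction_on with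
    | empty => simpa using h0 y
    | insert i s hi ih =>
      rw [Finset.sum_insert hi, Finset.sum_insert hi, hl, ih]
  have h0' : ∀ x, B x 0 = 0 := by
    intro x
    rw [halt, h0, neg_zero]
  have hzero : ∀ j, B (∑ i, v i • b i) (b j) = 0 := by
    intro j
    rw [hsum]
    have := congrFun hv j
    simpa [Matrix.vecMul, dotProduct, A] using this
  have hx : ∑ i, v i • b i = 0 := by
    apply hnd
    intro y
    rw [← b.sum_repr y]
    have : ∀ (s : Finset (Fin (Module.finrank ℂ U))),
        B (∑ i, v i • b i) (∑ j ∈ s, b.repr y j • b j) = 0 := by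
      intro s
      induction s using Finset.induction_on with
      | empty => simpa using h0' _
      | insert i s hi ih =>
        rw [Finset.sum_insert hi, hr, ih, hzero]; ring
    exact this _
  apply hv0
  have h3 := (Fintype.linearIndependent_iff.mp b.linearIndependent) v hx
  funext i
  exact h3 i

open Representation in
/-- Equivariant maps from a plane with determinant `δ` to a space with a nondegenerate symmetric
form with multiplier `δ` form a space of even dimension. -/
lemma even_hom {H : Type*} [Group H] [Fintype H] {W : Type*} [AddCommGroup W] [Module ℂ W]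
    [FiniteDimensional ℂ W]
    (ρ : Representation ℂ H (Fin 2 → ℂ)) (σ : Representation ℂ H W) (S : W →ₗ[ℂ] W →ₗ[ℂ] ℂ)
    (δ : H → ℂ) (hdet : ∀ h, LinearMap.det (ρ h) = δ h)
    (hsymm : ∀ x y, S x y = S y x) (hnd : ∀ x, (∀ y, S x y = 0) → x = 0)
    (hinv : ∀ h x y, S (σ h x) (σ h y) = δ h * S x y) :
    ∃ k : ℕ, (Nat.card H : ℂ)⁻¹ * ∑ h : H, ρ.character h⁻¹ * σ.character h = 2 * k := by
  classical
  have hH : (Nat.card H : ℂ) ≠ 0 := by exact_mod_cast Nat.card_pos.ne'
  have : Invertible (Nat.card H : ℂ) := invertibleOfNonzero hH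
  have hH' : (Fintype.card H : ℂ) ≠ 0 := by
    rw [Fintype.card_eq_nat_card]; exact hH
  have : Invertible (Fintype.card H : ℂ) := invertibleOfNonzero hH'
  have hfr := card_inv_mul_sum_char_eq_finrank (linHom ρ σ)
  simp only [char_linHom] at hfr
  rw [hfr]
  suffices h : Even (Module.finrank ℂ (invariants (linHom ρ σ))) by
    obtain ⟨k, hk⟩ := h
    refine ⟨k, ?_⟩
    rw [hk]; push_cast; ring
  set e0 : Fin 2 → ℂ := Pi.single 0 1 with he0
  set e1 : Fin 2 → ℂ := Pi.single 1 1 with he1
  let B : ((Fin 2 → ℂ) →ₗ[ℂ] W) → ((Fin 2 → ℂ) →ₗ[ℂ] W) → ℂ :=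
    fun X Y => S (X e0) (Y e1) - S (X e1) (Y e0)
  have hBl : ∀ Y (c : ℂ) X X', B (c • X + X') Y = c * B X Y + B X' Y := by
    intro Y c X X'
    simp only [B, LinearMap.add_apply, LinearMap.smul_apply, map_add, map_smul, smul_eq_mul]
    ring
  have hBr : ∀ X (c : ℂ) Y Y', B X (c • Y + Y') = c * B X Y + B X Y' := by
    intro X c Y Y'
    simp only [B, LinearMap.add_apply, LinearMap.smul_apply, map_add, map_smul, smul_eq_mul]
    ring
  have hBalt : ∀ X Y, B X Y = - B Y X := by
    intro X Y
    simp only [B]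
    rw [hsymm (Y e0) (X e1), hsymm (Y e1) (X e0)]
    ring
  have hexp : ∀ v : Fin 2 → ℂ, v = v 0 • e0 + v 1 • e1 := by
    intro v
    funext i
    fin_cases i <;> simp [e0, e1]
  have hdet2 : ∀ T : (Fin 2 → ℂ) →ₗ[ℂ] (Fin 2 → ℂ),
      LinearMap.det T = T e0 0 * T e1 1 - T e1 0 * T e0 1 := by
    intro T
    rw [← LinearMap.det_toMatrix', Matrix.det_fin_two]
    simp only [LinearMap.toMatrix'_apply, e0, e1]
  have hBT : ∀ (T : (Fin 2 → ℂ) →ₗ[ℂ] (Fin 2 → ℂ)) X Y,
      B (X ∘ₗ T) (Y ∘ₗ T) = LinearMap.det T * B X Y := by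
    intro T X Y
    have h0 : T e0 = T e0 0 • e0 + T e0 1 • e1 := hexp _
    have h1 : T e1 = T e1 0 • e0 + T e1 1 • e1 := hexp _
    rw [hdet2]
    simp only [B, LinearMap.comp_apply]
    generalize T e0 0 = a at h0 ⊢
    generalize T e0 1 = c at h0 ⊢
    generalize T e1 0 = b at h1 ⊢
    generalize T e1 1 = d at h1 ⊢
    rw [h0, h1]
    simp only [map_add, map_smul, LinearMap.add_apply, LinearMap.smul_apply, smul_eq_mul]
    ring
  have hBσ : ∀ h X Y, B (σ h ∘ₗ X) (σ h ∘ₗ Y) = δ h * B X Y := by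
    intro h X Y
    simp only [B, LinearMap.comp_apply, hinv]
    ring
  have hδ : ∀ h, δ h * LinearMap.det (ρ h⁻¹) = 1 := by
    intro h
    rw [← hdet, ← map_mul, ← map_mul, mul_inv_cancel, map_one, map_one]
  have hBlin : ∀ h X Y, B (linHom ρ σ h X) (linHom ρ σ h Y) = B X Y := by
    intro h X Y
    have h1 : ∀ Z, linHom ρ σ h Z = σ h ∘ₗ (Z ∘ₗ ρ h⁻¹) := by
      intro Z
      rw [linHom_apply]
    rw [h1, h1, hBσ, hBT, ← mul_assoc, hδ, one_mul]
  have hBsum : ∀ X {ι : Type _} (s : Finset ι) (Z : ι → ((Fin 2 → ℂ) →ₗ[ℂ] W)),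
      B X (∑ i ∈ s, Z i) = ∑ i ∈ s, B X (Z i) := by
    intro X ι s Z
    simp only [B, LinearMap.sum_apply, map_sum, Finset.sum_sub_distrib]
  let U := invariants (linHom ρ σ)
  change Even (Module.finrank ℂ U)
  refine even_of_alt (fun x y : U => B x y) ?_ ?_ ?_ ?_
  · intro y c x x'
    exact hBl _ _ _ _
  · intro x c y y'
    exact hBr _ _ _ _
  · intro x y
    exact hBalt _ _
  · intro X hX
    have hfull : ∀ Z, B X Z = 0 := by
      intro Z
      have hmem : (∑ h : H, linHom ρ σ h Z) ∈ U := by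
        rw [mem_invariants]
        intro g
        rw [map_sum]
        have : ∀ h, linHom ρ σ g (linHom ρ σ h Z) = linHom ρ σ (g * h) Z := by
          intro h
          rw [map_mul]; rfl
        simp only [this]
        exact Equiv.sum_comp (Equiv.mulLeft g) (fun h => linHom ρ σ h Z)
      have h1 : B X (∑ h : H, linHom ρ σ h Z) = 0 := hX ⟨_, hmem⟩
      rw [hBsum] at h1
      have h2 : ∀ h, B X (linHom ρ σ h Z) = B X Z := by
        intro h
        have h3 : linHom ρ σ h (X : (Fin 2 → ℂ) →ₗ[ℂ] W) = X := X.2 h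
        conv_lhs => rw [← h3]
        exact hBlin h _ _
      simp only [h2, Finset.sum_const, Finset.card_univ, nsmul_eq_mul] at h1
      exact (mul_eq_zero.mp h1).resolve_left hH'
    have hX0 : (X : (Fin 2 → ℂ) →ₗ[ℂ] W) e0 = 0 := by
      apply hnd
      intro w
      have h1 := hfull (LinearMap.toSpanSingleton ℂ W w ∘ₗ LinearMap.proj 1)
      simpa [B, e0, e1] using h1
    have hX1 : (X : (Fin 2 → ℂ) →ₗ[ℂ] W) e1 = 0 := by
      apply hnd
      intro w
      have h1 := hfull (LinearMap.toSpanSingleton ℂ W w ∘ₗ LinearMap.proj 0)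
      simpa [B, e0, e1] using h1
    apply Subtype.ext
    apply LinearMap.ext
    intro v
    rw [hexp v, map_add, map_smul, map_smul, hX0, hX1]
    simp

end Pool.Agent.E8helper13.Par
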