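import Mathlib
import Pool.Agent.W446.AS.Virt

/-!
# The Frobenius-Schur indicator with a multiplier
-/

set_option autoImplicit false
set_option linter.unusedSectionVars false

namespace Pool.Agent.E8helper13.Par

open Pool.Agent.H302R2 Pool.Agent.H541R3.ART Pool.Agent.W446.AS

section

variable {G : Type} [Group G] {m : ℕ} {ρ : Representation ℂ G (Fin m → ℂ)}

/-- the matrix of `ρ g` -/
noncomputable def mat (ρ : Representation ℂ G (Fin m → ℂ)) (g : G) : Matrix (Fin m) (Fin m) ℂ :=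
  LinearMap.toMatrix' (ρ g)

lemma mat_mul (g h : G) : mat ρ (g * h) = mat ρ g * mat ρ h := by
  simp only [mat, map_mul]
  exact LinearMap.toMatrix'_mul _ _

lemma mat_one : mat ρ 1 = 1 := by
  simp only [mat, map_one]
  exact LinearMap.toMatrix'_one

lemma char_mat (g : G) : ρ.character g = (mat ρ g).trace := by
  rw [Representation.character, mat, LinearMap.trace_eq_matrix_trace ℂ (Pi.basisFun ℂ (Fin m)),
    LinearMap.toMatrix_eq_toMatrix']

lemma mat_mulVec (g : G) (v : Fin m → ℂ) : (mat ρ g).mulVec v = ρ g v := by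
  rw [mat, ← Matrix.toLin'_apply, Matrix.toLin'_toMatrix']

/-- forms with multiplier `δ` -/
def Frm (ρ : Representation ℂ G (Fin m → ℂ)) (δ : G →* ℂˣ) (S : Matrix (Fin m) (Fin m) ℂ) :
    Prop :=
  ∀ h, (mat ρ h).transpose * S * mat ρ h = ((δ h : ℂˣ) : ℂ) • S

variable {δ : G →* ℂˣ} {S : Matrix (Fin m) (Fin m) ℂ}

lemma Frm.comm (hS : Frm ρ δ S) (g : G) :
    S * mat ρ g = ((δ g : ℂˣ) : ℂ) • ((mat ρ g⁻¹).transpose * S) := by
  have h1 := hS g
  have h2 : (mat ρ g⁻¹).transpose * (mat ρ g).transpose = 1 := by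
    rw [← Matrix.transpose_mul, ← mat_mul, mul_inv_cancel, mat_one, Matrix.transpose_one]
  calc S * mat ρ g = ((mat ρ g⁻¹).transpose * (mat ρ g).transpose) * S * mat ρ g := by
        rw [h2, Matrix.one_mul]
    _ = (mat ρ g⁻¹).transpose * ((mat ρ g).transpose * S * mat ρ g) := by
        simp only [Matrix.mul_assoc]
    _ = _ := by rw [h1, Matrix.mul_smul]

lemma Frm.transpose (hS : Frm ρ δ S) : Frm ρ δ S.transpose := by
  intro h
  have h1 := congrArg Matrix.transpose (hS h)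
  rw [Matrix.transpose_mul, Matrix.transpose_mul, Matrix.transpose_transpose,
    Matrix.transpose_smul] at h1
  rw [Matrix.mul_assoc]
  exact h1

lemma Frm.det_ne (hρ : Irred ρ) (hS : Frm ρ δ S) (h0 : S ≠ 0) : S.det ≠ 0 := by
  intro hdet
  obtain ⟨v, hv0, hv⟩ := Matrix.exists_mulVec_eq_zero_iff.mpr hdet
  rcases hρ.2 (LinearMap.ker S.mulVecLin) (by
    intro g w hw
    rw [LinearMap.mem_ker, Matrix.mulVecLin_apply] at hw ⊢
    rw [← mat_mulVec, Matrix.mulVec_mulVec, hS.comm, Matrix.smul_mulVec, ← Matrix.mulVec_mulVec,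
      hw, Matrix.mulVec_zero, smul_zero]) with h | h
  · apply hv0
    have h1 : v ∈ LinearMap.ker S.mulVecLin := by
      rw [LinearMap.mem_ker, Matrix.mulVecLin_apply]; exact hv
    rw [h] at h1
    simpa using h1
  · apply h0
    have h1 : S.mulVecLin = 0 := LinearMap.ker_eq_top.mp h
    ext i j
    have h2 := congrFun (LinearMap.congr_fun h1 (Pi.single j 1)) i
    simpa [Matrix.mulVecLin_apply] using h2

lemma Frm.unique (hρ : Irred ρ) (hS : Frm ρ δ S) (h0 : S ≠ 0) {S' : Matrix (Fin m) (Fin m) ℂ}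
    (hS' : Frm ρ δ S') : ∃ c : ℂ, S' = c • S := by
  have hdet : IsUnit S.det := isUnit_iff_ne_zero.mpr (hS.det_ne hρ h0)
  have hi1 : S * S⁻¹ = 1 := Matrix.mul_nonsing_inv S hdet
  have hi2 : S⁻¹ * S = 1 := Matrix.nonsing_inv_mul S hdet
  have hcomm : ∀ g, (S⁻¹ * S') * mat ρ g = mat ρ g * (S⁻¹ * S') := by
    intro g
    have h1 : mat ρ g * S⁻¹ = ((δ g : ℂˣ) : ℂ) • (S⁻¹ * (mat ρ g⁻¹).transpose) := by
      calc mat ρ g * S⁻¹ = S⁻¹ * (S * mat ρ g) * S⁻¹ := by
            rw [← Matrix.mul_assoc, hi2, Matrix.one_mul]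
        _ = ((δ g : ℂˣ) : ℂ) • (S⁻¹ * (mat ρ g⁻¹).transpose * (S * S⁻¹)) := by
            rw [hS.comm, Matrix.mul_smul, Matrix.smul_mul]
            simp only [Matrix.mul_assoc]
        _ = _ := by rw [hi1, Matrix.mul_one]
    calc (S⁻¹ * S') * mat ρ g = S⁻¹ * (S' * mat ρ g) := Matrix.mul_assoc _ _ _
      _ = ((δ g : ℂˣ) : ℂ) • (S⁻¹ * (mat ρ g⁻¹).transpose) * S' := by
          rw [hS'.comm, Matrix.mul_smul, Matrix.smul_mul, Matrix.mul_assoc]
      _ = mat ρ g * S⁻¹ * S' := by rw [← h1]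
      _ = _ := Matrix.mul_assoc _ _ _
  obtain ⟨c, hc⟩ := hρ.scalar (Matrix.toLin' (S⁻¹ * S')) (by
    intro g v
    rw [Matrix.toLin'_apply, Matrix.toLin'_apply, ← mat_mulVec, ← mat_mulVec,
      Matrix.mulVec_mulVec, Matrix.mulVec_mulVec, hcomm])
  refine ⟨c, ?_⟩
  have h2 : S⁻¹ * S' = c • (1 : Matrix (Fin m) (Fin m) ℂ) := by
    apply Matrix.toLin'.injective
    apply LinearMap.ext
    intro v
    rw [hc, Matrix.toLin'_apply, Matrix.smul_mulVec, Matrix.one_mulVec]
  calc S' = S * (S⁻¹ * S') := by rw [← Matrix.mul_assoc, hi1, Matrix.one_mul]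
    _ = c • S := by rw [h2, Matrix.mul_smul, Matrix.mul_one]

lemma Frm.sym (hρ : Irred ρ) (hS : Frm ρ δ S) (h0 : S ≠ 0) :
    S.transpose = S ∨ S.transpose = -S := by
  obtain ⟨c, hc⟩ := hS.unique hρ h0 hS.transpose
  have h1 : S = (c * c) • S := by
    have h2 := congrArg Matrix.transpose hc
    rw [Matrix.transpose_transpose, Matrix.transpose_smul, hc, smul_smul] at h2
    exact h2
  have h2 : c * c = 1 := by
    by_contra hne
    apply h0
    have h3 : (1 - c * c) • S = 0 := by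
      rw [sub_smul, one_smul, ← h1, sub_self]
    exact (smul_eq_zero.mp h3).resolve_left (fun h => hne (by linear_combination -h))
  rcases mul_self_eq_one_iff.mp h2 with h3 | h3
  · left; rw [hc, h3, one_smul]
  · right; rw [hc, h3, neg_one_smul]

lemma Frm.char_eq (hρ : Irred ρ) (hS : Frm ρ δ S) (h0 : S ≠ 0) (g : G) :
    ρ.character g = ((δ g : ℂˣ) : ℂ) * ρ.character g⁻¹ := by
  have hdet : IsUnit S.det := isUnit_iff_ne_zero.mpr (hS.det_ne hρ h0)
  have hi2 : S⁻¹ * S = 1 := Matrix.nonsing_inv_mul S hdet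
  have hi1 : S * S⁻¹ = 1 := Matrix.mul_nonsing_inv S hdet
  rw [char_mat, char_mat]
  calc (mat ρ g).trace = (S⁻¹ * (S * mat ρ g)).trace := by
        rw [← Matrix.mul_assoc, hi2, Matrix.one_mul]
    _ = ((δ g : ℂˣ) : ℂ) * (S⁻¹ * ((mat ρ g⁻¹).transpose * S)).trace := by
        rw [hS.comm, Matrix.mul_smul, Matrix.trace_smul, smul_eq_mul]
    _ = _ := by
        rw [Matrix.trace_mul_comm, Matrix.mul_assoc, hi1, Matrix.mul_one, Matrix.trace_transpose]

/-- skew forms exist only in even dimension -/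
lemma Frm.even (hρ : Irred ρ) (hS : Frm ρ δ S) (h0 : S ≠ 0) (hsk : S.transpose = -S) : Even m := by
  by_contra hodd
  rw [Nat.not_even_iff_odd] at hodd
  apply hS.det_ne hρ h0
  have h1 : S.transpose.det = S.det := Matrix.det_transpose S
  rw [hsk, Matrix.det_neg, Fintype.card_fin, hodd.neg_one_pow] at h1
  have h2 : (2 : ℂ) * S.det = 0 := by linear_combination -h1
  exact (mul_eq_zero.mp h2).resolve_left two_ne_zero

section avg

variable [Fintype G]

/-- the averaging operator -/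
noncomputable def Av (ρ : Representation ℂ G (Fin m → ℂ)) (δ : G →* ℂˣ)
    (A : Matrix (Fin m) (Fin m) ℂ) : Matrix (Fin m) (Fin m) ℂ :=
  ∑ g : G, (((δ g)⁻¹ : ℂˣ) : ℂ) • ((mat ρ g).transpose * A * mat ρ g)

lemma av_frm (A : Matrix (Fin m) (Fin m) ℂ) : Frm ρ δ (Av ρ δ A) := by
  intro h
  rw [Av, Matrix.mul_sum, Matrix.sum_mul, Finset.smul_sum]
  rw [← Equiv.sum_comp (Equiv.mulRight h)
    (fun g => ((δ h : ℂˣ) : ℂ) • (((δ g)⁻¹ : ℂˣ) : ℂ) • ((mat ρ g).transpose * A * mat ρ g))]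
  refine Finset.sum_congr rfl fun g _ => ?_
  simp only [Equiv.coe_mulRight]
  rw [smul_smul, mat_mul, Matrix.transpose_mul, map_mul, mul_inv_rev, ← Units.val_mul,
    mul_inv_cancel_left, Matrix.mul_smul, Matrix.smul_mul]
  simp only [Matrix.mul_assoc]

lemma av_transpose (A : Matrix (Fin m) (Fin m) ℂ) :
    (Av ρ δ A).transpose = Av ρ δ A.transpose := by
  rw [Av, Av, Matrix.transpose_sum]
  refine Finset.sum_congr rfl fun g _ => ?_
  rw [Matrix.transpose_smul, Matrix.transpose_mul, Matrix.transpose_mul,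
    Matrix.transpose_transpose, Matrix.mul_assoc]

lemma av_single (i j k l : Fin m) : Av ρ δ (Matrix.single i j 1) k l
    = ∑ g : G, (((δ g)⁻¹ : ℂˣ) : ℂ) * (mat ρ g i k * mat ρ g j l) := by
  rw [Av, Matrix.sum_apply]
  refine Finset.sum_congr rfl fun g _ => ?_
  rw [Matrix.smul_apply, smul_eq_mul]
  congr 1
  rw [Matrix.mul_apply, Finset.sum_eq_single j]
  · rw [Matrix.mul_apply, Finset.sum_eq_single i]
    · rw [Matrix.transpose_apply, Matrix.single_apply_same, mul_one]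
    · intro b _ hb
      rw [Matrix.single_apply_of_ne _ _ _ _ _ (fun h => hb h.1.symm), mul_zero]
    · intro h; exact absurd (Finset.mem_univ _) h
  · intro b _ hb
    rw [Matrix.mul_apply, Finset.sum_eq_zero, zero_mul]
    intro c _
    rw [Matrix.single_apply_of_ne _ _ _ _ _ (fun h => hb h.2.symm), mul_zero]
  · intro h; exact absurd (Finset.mem_univ _) h

lemma sum_sq : ∑ g : G, (((δ g)⁻¹ : ℂˣ) : ℂ) * (ρ.character g * ρ.character g)
    = ∑ i, ∑ j, Av ρ δ (Matrix.single i j 1) i j := by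
  simp only [av_single]
  have h1 : ∀ g : G, (((δ g)⁻¹ : ℂˣ) : ℂ) * (ρ.character g * ρ.character g)
      = ∑ i, ∑ j, (((δ g)⁻¹ : ℂˣ) : ℂ) * (mat ρ g i i * mat ρ g j j) := by
    intro g
    rw [char_mat, Matrix.trace]
    simp only [Matrix.diag_apply]
    rw [Finset.sum_mul_sum, Finset.mul_sum]
    refine Finset.sum_congr rfl fun i _ => ?_
    rw [Finset.mul_sum]
  simp only [h1]
  rw [Finset.sum_comm]
  refine Finset.sum_congr rfl fun i _ => ?_
  rw [Finset.sum_comm]

lemma sum_pow : ∑ g : G, (((δ g)⁻¹ : ℂˣ) : ℂ) * ρ.character (g ^ 2)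
    = ∑ i, ∑ j, Av ρ δ (Matrix.single j i 1) i j := by
  simp only [av_single]
  have h1 : ∀ g : G, (((δ g)⁻¹ : ℂˣ) : ℂ) * ρ.character (g ^ 2)
      = ∑ i, ∑ j, (((δ g)⁻¹ : ℂˣ) : ℂ) * (mat ρ g j i * mat ρ g i j) := by
    intro g
    rw [char_mat, pow_two, mat_mul, Matrix.trace]
    simp only [Matrix.diag_apply, Matrix.mul_apply]
    rw [Finset.mul_sum]
    refine Finset.sum_congr rfl fun i _ => ?_
    rw [Finset.mul_sum]
    refine Finset.sum_congr rfl fun j _ => ?_
    ring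
  simp only [h1]
  rw [Finset.sum_comm]
  refine Finset.sum_congr rfl fun i _ => ?_
  rw [Finset.sum_comm]

/-- **Frobenius-Schur with a multiplier.** -/
theorem fs_rep (hρ : Irred ρ) :
    ((∃ g, ρ.character g ≠ ((δ g : ℂˣ) : ℂ) * ρ.character g⁻¹) ∧
      ∑ g : G, (((δ g)⁻¹ : ℂˣ) : ℂ) * ρ.character (g ^ 2) = 0) ∨
    ((∀ g, ρ.character g = ((δ g : ℂˣ) : ℂ) * ρ.character g⁻¹) ∧
      ∑ g : G, (((δ g)⁻¹ : ℂˣ) : ℂ) * ρ.character (g ^ 2) = Nat.card G ∧
      ∃ S, Frm ρ δ S ∧ S.transpose = S ∧ S.det ≠ 0) ∨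
    ((∀ g, ρ.character g = ((δ g : ℂˣ) : ℂ) * ρ.character g⁻¹) ∧
      ∑ g : G, (((δ g)⁻¹ : ℂˣ) : ℂ) * ρ.character (g ^ 2) = - Nat.card G ∧ Even m) := by
  classical
  by_cases hex : ∃ S, Frm ρ δ S ∧ S ≠ 0
  · right
    obtain ⟨S, hS, h0⟩ := hex
    have hch := hS.char_eq hρ h0
    have hsq : ∑ g : G, (((δ g)⁻¹ : ℂˣ) : ℂ) * (ρ.character g * ρ.character g) = Nat.card G := by
      rw [← pair_self (irr_of_irred hρ)]
      refine Finset.sum_congr rfl fun g _ => ?_
      nth_rw 2 [hch g]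
      rw [Units.val_inv_eq_inv_val]
      have : ((δ g : ℂˣ) : ℂ) ≠ 0 := (δ g).ne_zero
      field_simp
    rcases hS.sym hρ h0 with h1 | h1
    · left
      refine ⟨hch, ?_, S, hS, h1, hS.det_ne hρ h0⟩
      rw [← hsq, sum_pow, sum_sq]
      refine Finset.sum_congr rfl fun i _ => Finset.sum_congr rfl fun j _ => ?_
      obtain ⟨c, hc⟩ := hS.unique hρ h0 (av_frm (ρ := ρ) (δ := δ) (Matrix.single i j 1))
      have h2 : Av ρ δ (Matrix.single j i 1) = (Av ρ δ (Matrix.single i j 1)).transpose := by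
        rw [av_transpose, Matrix.transpose_single]
      rw [h2, hc, Matrix.transpose_smul, h1]
    · right
      refine ⟨hch, ?_, hS.even hρ h0 h1⟩
      rw [← hsq, sum_pow, sum_sq, ← Finset.sum_neg_distrib]
      refine Finset.sum_congr rfl fun i _ => ?_
      rw [← Finset.sum_neg_distrib]
      refine Finset.sum_congr rfl fun j _ => ?_
      obtain ⟨c, hc⟩ := hS.unique hρ h0 (av_frm (ρ := ρ) (δ := δ) (Matrix.single i j 1))
      have h2 : Av ρ δ (Matrix.single j i 1) = (Av ρ δ (Matrix.single i j 1)).transpose := by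
        rw [av_transpose, Matrix.transpose_single]
      rw [h2, hc, Matrix.transpose_smul, h1, smul_neg, Matrix.neg_apply]
  · left
    push Not at hex
    have hz : ∀ A, Av ρ δ A = 0 := fun A => hex _ (av_frm A)
    constructor
    · by_contra hcon
      push Not at hcon
      have hsq : ∑ g : G, (((δ g)⁻¹ : ℂˣ) : ℂ) * (ρ.character g * ρ.character g)
          = Nat.card G := by
        rw [← pair_self (irr_of_irred hρ)]
        refine Finset.sum_congr rfl fun g _ => ?_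
        nth_rw 2 [hcon g]
        rw [Units.val_inv_eq_inv_val]
        have : ((δ g : ℂˣ) : ℂ) ≠ 0 := (δ g).ne_zero
        field_simp
      rw [sum_sq] at hsq
      simp only [hz, Matrix.zero_apply, Finset.sum_const_zero] at hsq
      exact card_ne (G := G) hsq.symm
    · rw [sum_pow]
      simp only [hz, Matrix.zero_apply, Finset.sum_const_zero]

end avg

end

end Pool.Agent.E8helper13.Par
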