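import Mathlib
import Pool.Agent.H302R3.Integral

/-!
# Parity from the 2-hyperelementary subgroups
-/

set_option autoImplicit false

namespace Pool.Agent.E8helper13.Par

open Pool.Agent.H302R2 Pool.Agent.H302R3 MulAction

universe u

variable {G : Type u} [Group G] [Finite G] {w : G → ℂ}

lemma sum_count_even (hconj : ∀ g x : G, w (x * g * x⁻¹) = w g)
    (hyp : ∀ H : Subgroup G, Hyp H → ∃ k : ℤ, ∑ᶠ h : H, w h = 2 * k * Nat.card H)
    {f : G → ℕ} (hf : HypCount f) : ∃ k : ℤ, ∑ᶠ g : G, w g * (f g : ℂ) = 2 * k * Nat.card G := by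
  classical
  obtain ⟨X, _, _, hX, hfX⟩ := hf
  have : Fintype G := Fintype.ofFinite _
  have : Fintype X := Fintype.ofFinite _
  let F : X → ℂ := fun x => ∑ g : G, if g • x = x then w g else 0
  have hstab : ∀ x : X, ∃ k : ℤ, F x = 2 * k * Nat.card (stabilizer G x) := by
    intro x
    obtain ⟨k, hk⟩ := hyp (stabilizer G x) (hX x)
    refine ⟨k, ?_⟩
    rw [← hk, finsum_eq_sum_of_fintype]
    change (∑ g : G, if g • x = x then w g else 0) = _
    rw [← Finset.sum_filter]
    exact Finset.sum_subtype _ (by simp) w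
  choose k hk using hstab
  have hinv : ∀ (h : G) (x : X), F (h • x) = F x := by
    intro h x
    change ∑ g : G, (if g • h • x = h • x then w g else 0) = ∑ g : G, if g • x = x then w g else 0
    rw [← Equiv.sum_comp (MulAut.conj h).toEquiv
      (fun g => if g • h • x = h • x then w g else 0)]
    refine Finset.sum_congr rfl fun g _ => ?_
    have e1 : (MulAut.conj h).toEquiv g = h * g * h⁻¹ := rfl
    rw [e1, hconj]
    have e2 : ((h * g * h⁻¹) • h • x = h • x) ↔ (g • x = x) := by
      rw [smul_smul, inv_mul_cancel_right, mul_smul]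
      exact smul_left_cancel_iff h
    by_cases hgx : g • x = x
    · rw [if_pos hgx, if_pos (e2.mpr hgx)]
    · rw [if_neg hgx, if_neg (fun h => hgx (e2.mp h))]
  have hsum : ∑ᶠ g : G, w g * (f g : ℂ) = ∑ x : X, F x := by
    rw [finsum_eq_sum_of_fintype, Finset.sum_comm]
    refine Finset.sum_congr rfl fun g _ => ?_
    rw [hfX, ← Finset.sum_filter, Finset.sum_const, nsmul_eq_mul, mul_comm,
      Nat.card_eq_fintype_card, Fintype.card_subtype]
  let mk : X → Quotient (orbitRel G X) := Quotient.mk _
  refine ⟨∑ ω : Quotient (orbitRel G X), k ω.out, ?_⟩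
  rw [hsum, ← Finset.sum_fiberwise_of_maps_to (s := Finset.univ) (t := Finset.univ)
    (g := mk) (fun _ _ => Finset.mem_univ _)]
  push_cast
  rw [Finset.mul_sum, Finset.sum_mul]
  refine Finset.sum_congr rfl fun ω _ => ?_
  have hconst : ∀ x ∈ Finset.univ.filter (fun x => mk x = ω), F x = F ω.out := by
    intro x hx
    have h2 := (Finset.mem_filter.mp hx).2
    have h3 : mk x = mk ω.out := by
      rw [h2]; exact (Quotient.out_eq ω).symm
    have h4 := Quotient.exact h3
    obtain ⟨h, hh⟩ := orbitRel_apply.mp h4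
    rw [← hh, hinv]
  rw [Finset.sum_congr rfl hconst, Finset.sum_const, nsmul_eq_mul, hk]
  have hcard : (Finset.univ.filter (fun x => mk x = ω)).card
      * Nat.card (stabilizer G ω.out) = Nat.card G := by
    have : Fintype (orbit G ω.out) := Fintype.ofFinite _
    have : Fintype (stabilizer G ω.out) := Fintype.ofFinite _
    have h5 := card_orbit_mul_card_stabilizer_eq_card_group G ω.out
    rw [Nat.card_eq_fintype_card, Nat.card_eq_fintype_card, ← h5]
    congr 1
    rw [← Fintype.card_subtype]
    refine Fintype.card_congr (Equiv.subtypeEquivRight fun x => ?_)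
    constructor
    · intro h2
      have h3 : mk x = mk ω.out := by
        rw [h2]; exact (Quotient.out_eq ω).symm
      exact orbitRel_apply.mp (Quotient.exact h3)
    · intro h2
      have h3 : mk x = mk ω.out := Quotient.sound (orbitRel_apply.mpr h2)
      rw [h3]; exact Quotient.out_eq ω
  rw [← hcard]
  push_cast
  ring

/-- **Parity.** If the averages of an integral class function over the 2-hyperelementary subgroups
are even integers, then so is its average over the group (if it is an integer). -/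
theorem parity_of_hyp (hconj : ∀ g x : G, w (x * g * x⁻¹) = w g)
    (hint : ∀ g, IsIntegral ℤ (w g))
    (hyp : ∀ H : Subgroup G, Hyp H → ∃ k : ℤ, ∑ᶠ h : H, w h = 2 * k * Nat.card H)
    {n : ℤ} (hn : ∑ᶠ g : G, w g = n * Nat.card G) : Even n := by
  classical
  have : Fintype G := Fintype.ofFinite _
  obtain ⟨F, hF, hodd⟩ := exists_all_odd (G := G)
  set N := Nat.card G with hN
  have hpow : HypCount (fun g => F g ^ (2 ^ N)) := by
    have := hF.pow (2 ^ N - 1)
    rwa [Nat.sub_add_cancel Nat.one_le_two_pow] at this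
  obtain ⟨k, hk⟩ := sum_count_even hconj hyp hpow
  choose e he using fun g => odd_pow_two_pow (F g) (hodd g) N
  set T : ℂ := ∑ g : G, w g * (e g : ℂ) with hT
  have hTint : IsIntegral ℤ T := by
    apply IsIntegral.sum
    intro g _
    apply IsIntegral.mul (hint g)
    have : ((e g : ℕ) : ℂ) = algebraMap ℤ ℂ (e g : ℤ) := by simp
    rw [this]
    exact isIntegral_algebraMap
  have hrel : (((2 * k - n) * N : ℤ) : ℂ) = ((2 ^ (N + 1) : ℕ) : ℂ) * T := by
    have h2 : (2 * k * N : ℂ) = n * N + 2 ^ (N + 1) * T := by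
      rw [← hk, ← hn, finsum_eq_sum_of_fintype, finsum_eq_sum_of_fintype, hT, Finset.mul_sum,
        ← Finset.sum_add_distrib]
      refine Finset.sum_congr rfl fun g _ => ?_
      rw [he]
      push_cast
      ring
    push_cast
    linear_combination h2
  have h5 := int_of_isIntegral_div (pow_pos two_pos _).ne' hTint hrel
  by_contra hne
  have hnodd : Odd n := Int.not_even_iff_odd.mp hne
  have h8 : IsCoprime (((2 ^ (N + 1) : ℕ) : ℤ)) ((2 * k : ℤ) - n) := by
    push_cast
    apply IsCoprime.pow_left
    rw [Int.isCoprime_iff_gcd_eq_one]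
    have h9 : Odd ((2 * k : ℤ) - n) := by
      apply Even.sub_odd
      · exact even_two_mul _
      · exact hnodd
    rw [Int.gcd_eq_natAbs]
    have h10 : Odd ((2 * k : ℤ) - n).natAbs := Int.natAbs_odd.mpr h9
    exact Nat.coprime_two_left.mpr h10
  have h9 : ((2 ^ (N + 1) : ℕ) : ℤ) ∣ (N : ℤ) := h8.dvd_of_dvd_mul_left h5
  have h10 : 2 ^ (N + 1) ∣ N := by exact_mod_cast h9
  have h11 := Nat.le_of_dvd Nat.card_pos h10
  have h12 : N < 2 ^ N := Nat.lt_two_pow_self
  have h13 : 2 ^ N ≤ 2 ^ (N + 1) := Nat.pow_le_pow_right (by norm_num) (Nat.le_succ N)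
  omega

end Pool.Agent.E8helper13.Par
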