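import Mathlib
import Pool.Agent.R389.Theta
import Pool.Agent.R362.Real
import Pool.Agent.E8helper13.Par.Alt
import Pool.Agent.E8helper13.Par.FS
import Pool.Agent.E8helper13.Par.Glob

/-!
# The pairing of a function of degree two with an orthogonal representation is even
-/

set_option autoImplicit false
set_option linter.unusedSectionVars false

namespace Pool.Agent.E8helper13.Par

open Pool.Agent.H302R2 Pool.Agent.H302R3 Pool.Agent.H541R3.ART Pool.Agent.W446.AS
  Pool.Agent.R389

section peel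

variable {H : Type} [Group H] [Finite H] {f : H → ℂ}

/-- natural multiplicities -/
def Nat' (f : H → ℂ) : Prop := ∀ χ ∈ Irr H, ∃ n : ℕ, pr f χ = n

lemma val_nat (hf : Virt f) (hn : Nat' f) : ∃ r : ℕ, f 1 = r := by
  classical
  choose! n hn using hn
  choose! d hd using fun χ (hχ : χ ∈ Irr H) => irr_deg_pos hχ
  refine ⟨∑ χ ∈ irrF H, n χ * d χ, ?_⟩
  rw [hf.expand 1]
  push_cast
  refine Finset.sum_congr rfl fun χ hχ => ?_
  rw [hn χ (mem_irrF.mp hχ), (hd χ (mem_irrF.mp hχ)).2]

lemma eq_zero_of_nat (hf : Virt f) (hn : Nat' f) (h1 : f 1 = 0) : ∀ g, f g = 0 := by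
  classical
  choose! n hn using hn
  choose! d hd using fun χ (hχ : χ ∈ Irr H) => irr_deg_pos hχ
  have h2 : ∑ χ ∈ irrF H, n χ * d χ = 0 := by
    rw [hf.expand 1] at h1
    have h3 : ∑ χ ∈ irrF H, pr f χ * χ 1 = ((∑ χ ∈ irrF H, n χ * d χ : ℕ) : ℂ) := by
      push_cast
      refine Finset.sum_congr rfl fun χ hχ => ?_
      rw [hn χ (mem_irrF.mp hχ), (hd χ (mem_irrF.mp hχ)).2]
    rw [h3] at h1
    exact_mod_cast h1
  intro g
  rw [hf.expand g]
  refine Finset.sum_eq_zero fun χ hχ => ?_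
  have h4 := (Finset.sum_eq_zero_iff.mp h2) χ hχ
  have h5 := (hd χ (mem_irrF.mp hχ)).1
  have h6 : n χ = 0 := by
    rcases Nat.mul_eq_zero.mp h4 with h | h
    · exact h
    · omega
  rw [hn χ (mem_irrF.mp hχ), h6]; simp

lemma pr_sub' (a b χ : H → ℂ) : pr (a - b) χ = pr a χ - pr b χ := by
  rw [sub_eq_add_neg, pr_add, pr_neg, sub_eq_add_neg]

lemma peel (hf : Virt f) (hn : Nat' f) (h1 : f 1 ≠ 0) :
    ∃ χ ∈ Irr H, Virt (f - χ) ∧ Nat' (f - χ) := by
  classical
  obtain ⟨χ, hχ, h2⟩ : ∃ χ ∈ Irr H, pr f χ ≠ 0 := by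
    by_contra hcon
    push Not at hcon
    apply h1
    rw [hf.expand 1]
    exact Finset.sum_eq_zero fun χ hχ => by rw [hcon χ (mem_irrF.mp hχ), zero_mul]
  refine ⟨χ, hχ, AddSubgroup.sub_mem _ hf (AddSubgroup.subset_closure hχ), fun φ hφ => ?_⟩
  obtain ⟨n, hn'⟩ := hn φ hφ
  rw [pr_sub']
  by_cases h : χ = φ
  · subst h
    rw [pr_self hχ, hn']
    have hn0 : n ≠ 0 := by
      rintro rfl
      exact h2 (by rw [hn']; simp)
    exact ⟨n - 1, by push_cast [Nat.one_le_iff_ne_zero.mpr hn0]; ring⟩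
  · rw [pr_ne hχ hφ h, sub_zero]
    exact ⟨n, hn'⟩

/-- functions of degree two with natural multiplicities -/
lemma two_cases (hf : Virt f) (hn : Nat' f) (h1 : f 1 = 2) :
    f ∈ Irr H ∨ ∃ a b : H →* ℂˣ, ∀ h, f h = ((a h : ℂˣ) : ℂ) + ((b h : ℂˣ) : ℂ) := by
  obtain ⟨χ, hχ, hV1, hN1⟩ := peel hf hn (by rw [h1]; exact two_ne_zero)
  obtain ⟨d, hd, hd1⟩ := irr_deg_pos hχ
  obtain ⟨r, hr⟩ := val_nat hV1 hN1
  have hdr : r + d = 2 := by
    have : ((r + d : ℕ) : ℂ) = 2 := by
      push_cast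
      rw [← hr, ← hd1, ← h1, Pi.sub_apply]; ring
    exact_mod_cast this
  rcases Nat.eq_zero_or_pos r with hr0 | hr0
  · left
    have h3 := eq_zero_of_nat hV1 hN1 (by rw [hr, hr0]; simp)
    have : f = χ := by
      funext g
      exact sub_eq_zero.mp (h3 g)
    rw [this]; exact hχ
  · right
    have hd1' : d = 1 := by omega
    have hr1 : r = 1 := by omega
    obtain ⟨a, ha⟩ := irr_deg_one hχ (by rw [hd1, hd1']; simp)
    obtain ⟨χ2, hχ2, hV2, hN2⟩ := peel hV1 hN1 (by rw [hr, hr1]; simp)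
    obtain ⟨d2, hd2, hd21⟩ := irr_deg_pos hχ2
    obtain ⟨r2, hr2⟩ := val_nat hV2 hN2
    have hdr2 : r2 + d2 = 1 := by
      have : ((r2 + d2 : ℕ) : ℂ) = 1 := by
        push_cast
        rw [← hr2, ← hd21, Pi.sub_apply, hr, hr1]; push_cast; ring
      exact_mod_cast this
    have hd2' : d2 = 1 := by omega
    have hr2' : r2 = 0 := by omega
    obtain ⟨b, hb⟩ := irr_deg_one hχ2 (by rw [hd21, hd2']; simp)
    have h3 := eq_zero_of_nat hV2 hN2 (by rw [hr2, hr2']; simp)
    refine ⟨a, b, fun h => ?_⟩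
    have h4 := h3 h
    simp only [Pi.sub_apply] at h4
    rw [← ha, ← hb]
    linear_combination h4

end peel

section loc

variable {H : Type} [Group H] [Finite H]

/-- the pairing of a genuine function of degree two and determinant `δ` with a representation
having a nondegenerate symmetric form with multiplier `δ` is even -/
theorem even_loc {f : H → ℂ} (hf : Virt f) (hn : Nat' f) (h1 : f 1 = 2) {m : ℕ}
    (σ : Representation ℂ H (Fin m → ℂ)) {δ : H →* ℂˣ} (hδ : ∀ h, ((δ h : ℂˣ) : ℂ) = dd f h)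
    {S : Matrix (Fin m) (Fin m) ℂ} (hS : Frm σ δ S) (hsym : S.transpose = S) (hdet : S.det ≠ 0) :
    ∃ k : ℤ, pr f σ.character = 2 * k := by
  classical
  have : Fintype H := Fintype.ofFinite H
  rcases two_cases hf hn h1 with hirr | ⟨a, b, hab⟩
  · obtain ⟨n, ρ, hρ, hfρ⟩ := exists_rep hirr
    have hn2 : n = 2 := by
      have : f 1 = n := by rw [hfρ, Representation.char_one, Module.finrank_fin_fun]
      rw [h1] at this
      exact_mod_cast this.symm
    subst hn2
    let B : (Fin m → ℂ) →ₗ[ℂ] (Fin m → ℂ) →ₗ[ℂ] ℂ := Matrix.toLinearMap₂' ℂ S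
    have hB : ∀ x y, B x y = x ⬝ᵥ S.mulVec y := by
      intro x y
      exact Matrix.toLinearMap₂'_apply' S x y
    have hdet2 : ∀ h, LinearMap.det (ρ h) = ((δ h : ℂˣ) : ℂ) := by
      intro h
      rw [hδ, dd, hfρ, char_mat, char_mat, pow_two h, mat_mul, ← LinearMap.det_toMatrix']
      change (mat ρ h).det = _
      rw [Matrix.det_fin_two, Matrix.trace_fin_two, Matrix.trace_fin_two]
      simp only [Matrix.mul_apply, Fin.sum_univ_two]
      ring
    obtain ⟨k, hk⟩ := even_hom ρ σ B (fun h => ((δ h : ℂˣ) : ℂ)) hdet2 (by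
        intro x y
        rw [hB, hB, Matrix.dotProduct_mulVec, ← Matrix.mulVec_transpose, hsym, dotProduct_comm])
      (by
        intro x hx
        by_contra hx0
        apply hdet
        rw [← Matrix.exists_vecMul_eq_zero_iff]
        refine ⟨x, hx0, ?_⟩
        apply dotProduct_eq_zero
        intro y
        rw [← Matrix.dotProduct_mulVec, ← hB]
        exact hx y)
      (by
        intro h x y
        have h2 := hS h
        rw [hB, hB, ← mat_mulVec, ← mat_mulVec]
        calc (mat σ h).mulVec x ⬝ᵥ S.mulVec ((mat σ h).mulVec y)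
            = x ⬝ᵥ ((mat σ h).transpose * S * mat σ h).mulVec y := by
              rw [← Matrix.mulVec_mulVec, ← Matrix.mulVec_mulVec, Matrix.dotProduct_mulVec x,
                Matrix.vecMul_transpose]
          _ = _ := by rw [h2, Matrix.smul_mulVec, dotProduct_smul, smul_eq_mul])
    refine ⟨k, ?_⟩
    rw [pr_eq, hfρ]
    push_cast
    rw [← hk]
    congr 1
    rw [← Equiv.sum_comp (Equiv.inv H) (fun h => ρ.character h⁻¹ * σ.character h)]
    refine Finset.sum_congr rfl fun h _ => ?_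
    simp
  · -- two linear characters
    have hσV : Virt σ.character := char_mem m σ (by simp)
    have hdet0 : IsUnit S.det := isUnit_iff_ne_zero.mpr hdet
    have hi2 : S⁻¹ * S = 1 := Matrix.nonsing_inv_mul S hdet0
    have hi1 : S * S⁻¹ = 1 := Matrix.mul_nonsing_inv S hdet0
    have hch : ∀ g, σ.character g = ((δ g : ℂˣ) : ℂ) * σ.character g⁻¹ := by
      intro g
      rw [char_mat, char_mat]
      calc (mat σ g).trace = (S⁻¹ * (S * mat σ g)).trace := by
            rw [← Matrix.mul_assoc, hi2, Matrix.one_mul]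
        _ = ((δ g : ℂˣ) : ℂ) * (S⁻¹ * ((mat σ g⁻¹).transpose * S)).trace := by
            rw [hS.comm, Matrix.mul_smul, Matrix.trace_smul, smul_eq_mul]
        _ = _ := by
            rw [Matrix.trace_mul_comm, Matrix.mul_assoc, hi1, Matrix.mul_one,
              Matrix.trace_transpose]
    have hδab : ∀ g, ((δ g : ℂˣ) : ℂ) = ((a g : ℂˣ) : ℂ) * ((b g : ℂˣ) : ℂ) := by
      intro g
      rw [hδ, dd, hab, hab, map_pow, map_pow]
      push_cast
      ring
    have hpa : pr f σ.character = pr (fun h => ((a h : ℂˣ) : ℂ)) σ.character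
        + pr (fun h => ((b h : ℂˣ) : ℂ)) σ.character := by
      rw [← pr_add]
      congr 1
      funext g
      exact hab g
    have hab' : pr (fun h => ((b h : ℂˣ) : ℂ)) σ.character
        = pr (fun h => ((a h : ℂˣ) : ℂ)) σ.character := by
      rw [pr_eq, pr_eq]
      congr 1
      rw [← Equiv.sum_comp (Equiv.inv H) (fun g => ((a g : ℂˣ) : ℂ) * σ.character g⁻¹)]
      refine Finset.sum_congr rfl fun g _ => ?_
      simp only [Equiv.inv_apply, inv_inv]
      rw [hch g, hδab g, map_inv, Units.val_inv_eq_inv_val]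
      have : ((a g : ℂˣ) : ℂ) ≠ 0 := (a g).ne_zero
      field_simp
    obtain ⟨k, hk⟩ := hσV.pr_int (lin_irr a)
    refine ⟨k, ?_⟩
    rw [hpa, hab', pr_comm, hk]
    ring

end loc

section glob

variable {G : Type} [Group G] [Finite G] {θ : G → ℂ}

/-- **Parity.** The multiplicity in `θ` of an orthogonal character (with multiplier the determinant
of `θ`) is even. -/
theorem even_mult (hV : Virt θ) (hS : IsSolHeilbronn θ) (h1 : θ 1 = 2) {δ : G →* ℂˣ}
    (hδ : ∀ h, ((δ h : ℂˣ) : ℂ) = dd θ h) {m : ℕ} (σ : Representation ℂ G (Fin m → ℂ))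
    {S : Matrix (Fin m) (Fin m) ℂ} (hF : Frm σ δ S) (hsym : S.transpose = S) (hdet : S.det ≠ 0)
    {n : ℤ} (hn : pr θ σ.character = n) : Even n := by
  classical
  have : Fintype G := Fintype.ofFinite G
  have hσV : Virt σ.character := char_mem m σ (by simp)
  refine parity_of_hyp (w := fun g => θ g * σ.character g⁻¹) ?_ ?_ ?_ (n := n) ?_
  · intro g x
    have h2 : (x * g * x⁻¹)⁻¹ = x * g⁻¹ * x⁻¹ := by group
    rw [hS.conj, h2, hσV.conj]
  · intro g
    apply IsIntegral.mul (hS.isIntegral g)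
    rw [hσV.expand]
    apply IsIntegral.sum
    intro χ hχ
    obtain ⟨k, hk⟩ := hσV.pr_int (mem_irrF.mp hχ)
    rw [hk]
    apply IsIntegral.mul
    · have : ((k : ℤ) : ℂ) = algebraMap ℤ ℂ k := by simp
      rw [this]
      exact isIntegral_algebraMap
    · exact (irr_heilbronn (mem_irrF.mp hχ)).toSol.isIntegral _
  · intro H hH
    have : Fintype H := Fintype.ofFinite H
    have hsol : Group.IsSolvable H := Hyp.solvable hH
    have hHeil : IsHeilbronn (fun h : H => θ h) := hS.comp_sol hsol H.subtype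
    have hNat : Nat' (fun h : H => θ h) := by
      intro χ hχ
      obtain ⟨K, ψ, rfl⟩ := hyp_mono Nat.prime_two (Nat.card H) H rfl (by
        obtain ⟨c, hc, hn, hpw⟩ := hH
        exact ⟨c, (Nat.coprime_two_right).mpr hc, hn, hpw⟩) χ hχ
      rw [frob' K _ (F := fun h : H => θ h) hHeil.conj]
      obtain ⟨k, hk⟩ := hHeil.mult K ψ
      refine ⟨k, ?_⟩
      rw [pr]
      have h3 : ∀ h : K, θ (h : H) * (((ψ h)⁻¹ : ℂˣ) : ℂ) = θ (h : H) * ((ψ h⁻¹ : ℂˣ) : ℂ) := by
        intro h; rw [map_inv]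
      simp only [h3] at hk
      rw [hk]
      have h4 : (Nat.card K : ℂ) ≠ 0 := card_ne
      field_simp
    obtain ⟨k, hk⟩ := even_loc (f := fun h : H => θ h) (hV.comp H.subtype) hNat h1
      (σ.comp H.subtype) (δ := δ.comp H.subtype) (fun h => hδ h) (S := S) (fun h => hF h) hsym hdet
    refine ⟨k, ?_⟩
    rw [← hk, pr]
    have h4 : (Nat.card H : ℂ) ≠ 0 := card_ne
    have h5 : ∀ h : H, (Representation.character (σ.comp H.subtype)) h = σ.character h :=
      fun _ => rfl
    simp only [h5]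
    push_cast
    field_simp
  · rw [← hn, pr]
    have h4 : (Nat.card G : ℂ) ≠ 0 := card_ne
    field_simp

end glob

end Pool.Agent.E8helper13.Par
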