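import Mathlib
import Pool.Agent.E8helper13.Par.Loc

/-!
# Negative multiplicities in degree two
-/

set_option autoImplicit false
set_option linter.unusedSectionVars false

namespace Pool.Agent.E8helper13.Par

open Pool.Agent.H302R2 Pool.Agent.H302R3 Pool.Agent.H541R3.ART Pool.Agent.W446.AS
  Pool.Agent.R389 Pool.Agent.R362

section dual

variable {G : Type} [Group G] [Finite G]

/-- the dual of an irreducible character -/
lemma irr_dual {χ : G → ℂ} (hχ : χ ∈ Irr G) : (fun g => χ g⁻¹) ∈ Irr G := by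
  classical
  have : Fintype G := Fintype.ofFinite G
  obtain ⟨d, hd, hd1⟩ := irr_deg_pos hχ
  have hself := pr_self hχ
  have hV : Virt (fun g => χ g⁻¹) := by
    obtain ⟨n, ρ, -, rfl⟩ := exists_rep hχ
    have h1 : (fun g => ρ.character g⁻¹) = ρ.dual.character := by
      funext g
      rw [Representation.char_dual]
    rw [h1]
    have h2 := char_mem n (V := Fin n → ℂ) (G := G)
      { toFun := fun g => Matrix.toLin' (mat ρ g⁻¹).transpose
        map_one' := by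
          rw [inv_one, mat_one, Matrix.transpose_one, Matrix.toLin'_one]; rfl
        map_mul' := by
          intro a b
          rw [mul_inv_rev, mat_mul, Matrix.transpose_mul, Matrix.toLin'_mul]; rfl } (by simp)
    have h3 : ρ.dual.character = Representation.character (k := ℂ) (G := G) (V := Fin n → ℂ)
      { toFun := fun g => Matrix.toLin' (mat ρ g⁻¹).transpose
        map_one' := by
          rw [inv_one, mat_one, Matrix.transpose_one, Matrix.toLin'_one]; rfl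
        map_mul' := by
          intro a b
          rw [mul_inv_rev, mat_mul, Matrix.transpose_mul, Matrix.toLin'_mul]; rfl } := by
      funext g
      rw [Representation.char_dual, char_mat, Representation.character]
      change _ = LinearMap.trace ℂ _ (Matrix.toLin' (mat ρ g⁻¹).transpose)
      rw [LinearMap.trace_eq_matrix_trace ℂ (Pi.basisFun ℂ (Fin n)),
        LinearMap.toMatrix_eq_toMatrix', LinearMap.toMatrix'_toLin', Matrix.trace_transpose]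
    rw [h3]
    exact h2
  refine irr_of_norm_one hV ?_ hd (by simpa using hd1)
  rw [← hself, pr_eq, pr_eq]
  congr 1
  refine Finset.sum_congr rfl fun g _ => ?_
  simp only [inv_inv]
  ring

/-- the `δ`-dual -/
def dl (δ : G →* ℂˣ) (χ : G → ℂ) : G → ℂ := fun g => χ g⁻¹ * ((δ g : ℂˣ) : ℂ)

lemma dl_irr (δ : G →* ℂˣ) {χ : G → ℂ} (hχ : χ ∈ Irr G) : dl δ χ ∈ Irr G :=
  irr_twist (irr_dual hχ) δ

lemma dl_dl (δ : G →* ℂˣ) (χ : G → ℂ) : dl δ (dl δ χ) = χ := by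
  funext g
  simp only [dl, inv_inv, map_inv]
  rw [mul_assoc, ← Units.val_mul, inv_mul_cancel, Units.val_one, mul_one]

/-- the Frobenius-Schur indicator with multiplier `δ` -/
noncomputable def fs (δ : G →* ℂˣ) (χ : G → ℂ) : ℂ :=
  (Nat.card G : ℂ)⁻¹ * ∑ᶠ g, (((δ g)⁻¹ : ℂˣ) : ℂ) * χ (g ^ 2)

lemma fs_eq [Fintype G] (δ : G →* ℂˣ) (χ : G → ℂ) :
    fs δ χ = (Nat.card G : ℂ)⁻¹ * ∑ g, (((δ g)⁻¹ : ℂˣ) : ℂ) * χ (g ^ 2) := by
  rw [fs, finsum_eq_sum_of_fintype]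

end dual

section main

variable {G : Type} [Group G] [Finite G] {θ : G → ℂ}

/-- trichotomy of the Frobenius-Schur indicator, with parity -/
theorem fs_cases (hV : Virt θ) (hS : IsSolHeilbronn θ) (h1 : θ 1 = 2) {δ : G →* ℂˣ}
    (hδ : ∀ h, ((δ h : ℂˣ) : ℂ) = dd θ h) {χ : G → ℂ} (hχ : χ ∈ Irr G) :
    (dl δ χ ≠ χ ∧ fs δ χ = 0) ∨
    (dl δ χ = χ ∧ fs δ χ = 1 ∧ ∀ n : ℤ, pr θ χ = n → Even n) ∨
    (dl δ χ = χ ∧ fs δ χ = -1 ∧ ∃ k : ℕ, χ 1 = 2 * k) := by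
  classical
  have : Fintype G := Fintype.ofFinite G
  have hG : (Nat.card G : ℂ) ≠ 0 := card_ne
  obtain ⟨m, ρ, hρ, rfl⟩ := exists_rep hχ
  have hdl : (∀ g, ρ.character g = ((δ g : ℂˣ) : ℂ) * ρ.character g⁻¹) →
      dl δ ρ.character = ρ.character := by
    intro h
    funext g
    rw [dl, h g]; ring
  rcases fs_rep (δ := δ) hρ with ⟨⟨g, hg⟩, h3⟩ | ⟨h2, h3, S, hS1, hS2, hS3⟩ | ⟨h2, h3, h4⟩
  · left
    refine ⟨?_, by rw [fs_eq, h3, mul_zero]⟩
    intro h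
    apply hg
    have h4 := congrFun h g
    simp only [dl] at h4
    rw [mul_comm]
    exact h4.symm
  · right; left
    refine ⟨hdl h2, by rw [fs_eq, h3, inv_mul_cancel₀ hG], ?_⟩
    intro n hn
    exact even_mult hV hS h1 hδ ρ hS1 hS2 hS3 hn
  · right; right
    refine ⟨hdl h2, by rw [fs_eq, h3, mul_neg, inv_mul_cancel₀ hG], ?_⟩
    obtain ⟨k, hk⟩ := h4
    refine ⟨k, ?_⟩
    rw [Representation.char_one, Module.finrank_fin_fun, hk]
    push_cast; ring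

/-- values at inverses -/
lemma theta_inv (hS : IsSolHeilbronn θ) (h1 : θ 1 = 2) (g : G) : θ g⁻¹ * dd θ g = θ g := by
  obtain ⟨a, b, ha, hb, hd, hab, hpow⟩ := (hS.zp g).two_eig h1 ⟨g, Subgroup.mem_zpowers g⟩
  have ha0 : a ≠ 0 := by rw [← norm_ne_zero_iff, ha]; norm_num
  have hb0 : b ≠ 0 := by rw [← norm_ne_zero_iff, hb]; norm_num
  have h2 := hpow (-1)
  have h3 : θ g⁻¹ = a⁻¹ + b⁻¹ := by
    simpa using h2
  have h4 : dd θ g = a * b := hd
  have h5 : θ g = a + b := hab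
  rw [h3, h4, h5]
  field_simp
  ring

/-- the multiplicity of the dual -/
lemma pr_dl (hS : IsSolHeilbronn θ) (h1 : θ 1 = 2) {δ : G →* ℂˣ}
    (hδ : ∀ h, ((δ h : ℂˣ) : ℂ) = dd θ h) (χ : G → ℂ) : pr θ (dl δ χ) = pr θ χ := by
  classical
  have : Fintype G := Fintype.ofFinite G
  rw [pr_eq, pr_eq]
  congr 1
  rw [← Equiv.sum_comp (Equiv.inv G) (fun g => θ g * χ g⁻¹)]
  refine Finset.sum_congr rfl fun g _ => ?_
  simp only [Equiv.inv_apply, inv_inv, dl]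
  rw [← theta_inv hS h1 g, ← hδ g, map_inv]
  have : ((δ g : ℂˣ) : ℂ) * (((δ g)⁻¹ : ℂˣ) : ℂ) = 1 := by
    rw [← Units.val_mul, mul_inv_cancel, Units.val_one]
  linear_combination (θ g⁻¹ * χ g) * this

/-- the identity -/
lemma sum_identity (hV : Virt θ) (hS : IsSolHeilbronn θ) (h1 : θ 1 = 2) {δ : G →* ℂˣ}
    (hδ : ∀ h, ((δ h : ℂˣ) : ℂ) = dd θ h) :
    ∑ χ ∈ irrF G, (pr θ χ ^ 2 - pr θ χ * fs δ χ) = 2 := by
  classical
  have : Fintype G := Fintype.ofFinite G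
  have hG : (Nat.card G : ℂ) ≠ 0 := card_ne
  rw [Finset.sum_sub_distrib, ← pr_self_expand hV]
  have h2 : ∑ χ ∈ irrF G, pr θ χ * fs δ χ
      = (Nat.card G : ℂ)⁻¹ * ∑ g, (((δ g)⁻¹ : ℂˣ) : ℂ) * θ (g ^ 2) := by
    have h3 : ∀ g : G, (((δ g)⁻¹ : ℂˣ) : ℂ) * θ (g ^ 2)
        = ∑ χ ∈ irrF G, pr θ χ * ((((δ g)⁻¹ : ℂˣ) : ℂ) * χ (g ^ 2)) := by
      intro g
      rw [hV.expand (g ^ 2), Finset.mul_sum]
      exact Finset.sum_congr rfl fun χ _ => by ring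
    simp only [h3]
    rw [Finset.sum_comm, Finset.mul_sum]
    refine Finset.sum_congr rfl fun χ _ => ?_
    rw [fs_eq, ← Finset.mul_sum]
    ring
  rw [h2, pr_eq, ← mul_sub, ← Finset.sum_sub_distrib]
  have h4 : ∀ g : G, θ g * θ g⁻¹ - (((δ g)⁻¹ : ℂˣ) : ℂ) * θ (g ^ 2) = 2 := by
    intro g
    have h5 := theta_inv hS h1 g
    have h6 : ((δ g : ℂˣ) : ℂ) * (((δ g)⁻¹ : ℂˣ) : ℂ) = 1 := by
      rw [← Units.val_mul, mul_inv_cancel, Units.val_one]
    have h7 := hδ g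
    rw [← h7] at h5
    have h8 : θ g⁻¹ = θ g * (((δ g)⁻¹ : ℂˣ) : ℂ) := by
      linear_combination (((δ g)⁻¹ : ℂˣ) : ℂ) * h5 - θ g⁻¹ * h6
    rw [h8]
    rw [dd] at h7
    linear_combination (-2 * (((δ g)⁻¹ : ℂˣ) : ℂ)) * h7 + 2 * h6
  simp only [h4, Finset.sum_const, Finset.card_univ, nsmul_eq_mul]
  rw [← Nat.card_eq_fintype_card]
  field_simp

/-- the integral data of the multiplicities -/
structure Data (θ : G → ℂ) (δ : G →* ℂˣ) (l e : (G → ℂ) → ℤ) : Prop where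
  pr : ∀ χ ∈ Irr G, Pool.Agent.W446.AS.pr θ χ = l χ
  cases : ∀ χ ∈ Irr G, (dl δ χ ≠ χ ∧ fs δ χ = 0 ∧ e χ = 0) ∨
    (dl δ χ = χ ∧ fs δ χ = 1 ∧ e χ = 1 ∧ Even (l χ)) ∨
    (dl δ χ = χ ∧ fs δ χ = -1 ∧ e χ = -1 ∧ ∃ k : ℕ, χ 1 = 2 * k)
  dual : ∀ χ ∈ Irr G, l (dl δ χ) = l χ
  sum : ∑ χ ∈ irrF G, (l χ ^ 2 - l χ * e χ) = 2
  nonneg : ∀ χ ∈ Irr G, 0 ≤ l χ ^ 2 - l χ * e χ

lemma exists_data (hV : Virt θ) (hS : IsSolHeilbronn θ) (h1 : θ 1 = 2) {δ : G →* ℂˣ}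
    (hδ : ∀ h, ((δ h : ℂˣ) : ℂ) = dd θ h) : ∃ l e : (G → ℂ) → ℤ, Data θ δ l e := by
  classical
  choose! l hl using fun χ (hχ : χ ∈ Irr G) => hV.pr_int hχ
  have hex : ∀ χ ∈ Irr G, ∃ e : ℤ, (dl δ χ ≠ χ ∧ fs δ χ = 0 ∧ e = 0) ∨
    (dl δ χ = χ ∧ fs δ χ = 1 ∧ e = 1 ∧ Even (l χ)) ∨
    (dl δ χ = χ ∧ fs δ χ = -1 ∧ e = -1 ∧ ∃ k : ℕ, χ 1 = 2 * k) := by
    intro χ hχ
    rcases fs_cases hV hS h1 hδ hχ with h | h | h
    · exact ⟨0, Or.inl ⟨h.1, h.2, rfl⟩⟩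
    · exact ⟨1, Or.inr (Or.inl ⟨h.1, h.2.1, rfl, h.2.2 _ (hl χ hχ)⟩)⟩
    · exact ⟨-1, Or.inr (Or.inr ⟨h.1, h.2.1, rfl, h.2.2⟩)⟩
  choose! e he using hex
  refine ⟨l, e, hl, he, ?_, ?_, ?_⟩
  · intro χ hχ
    have h2 := pr_dl hS h1 hδ χ
    rw [hl χ hχ, hl _ (dl_irr δ hχ)] at h2
    exact_mod_cast h2
  · have h2 := sum_identity hV hS h1 hδ
    have h3 : ∑ χ ∈ irrF G, (pr θ χ ^ 2 - pr θ χ * fs δ χ)
        = ((∑ χ ∈ irrF G, (l χ ^ 2 - l χ * e χ) : ℤ) : ℂ) := by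
      push_cast
      refine Finset.sum_congr rfl fun χ hχ => ?_
      have h4 : fs δ χ = e χ := by
        rcases he χ (mem_irrF.mp hχ) with h | h | h
        · rw [h.2.1, h.2.2]; simp
        · rw [h.2.1, h.2.2.1]; simp
        · rw [h.2.1, h.2.2.1]; simp
      rw [hl χ (mem_irrF.mp hχ), h4]
    rw [h3] at h2
    exact_mod_cast h2
  · intro χ hχ
    have h4 : e χ = 0 ∨ e χ = 1 ∨ e χ = -1 := by
      rcases he χ hχ with h | h | h
      · exact Or.inl h.2.2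
      · exact Or.inr (Or.inl h.2.2.1)
      · exact Or.inr (Or.inr h.2.2.1)
    rcases h4 with h4 | h4 | h4
    · rw [h4]; nlinarith
    · rw [h4]
      rcases le_or_gt (l χ) 0 with h5 | h5
      · nlinarith
      · nlinarith
    · rw [h4]
      rcases le_or_gt 0 (l χ) with h5 | h5
      · nlinarith
      · nlinarith

variable {δ : G →* ℂˣ} {l e : (G → ℂ) → ℤ}

lemma Data.exists_pos (D : Data θ δ l e) (hV : Virt θ) (h1 : θ 1 = 2) :
    ∃ χ ∈ Irr G, 0 < l χ := by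
  classical
  by_contra hcon
  push Not at hcon
  choose! d hd using fun χ (hχ : χ ∈ Irr G) => irr_deg_pos hχ
  have h2 : θ 1 = ((∑ χ ∈ irrF G, l χ * d χ : ℤ) : ℂ) := by
    rw [hV.expand 1]
    push_cast
    refine Finset.sum_congr rfl fun χ hχ => ?_
    rw [D.pr χ (mem_irrF.mp hχ), (hd χ (mem_irrF.mp hχ)).2]
  have h3 : ∑ χ ∈ irrF G, l χ * d χ ≤ 0 := by
    refine Finset.sum_nonpos fun χ hχ => ?_
    have h4 := hcon χ (mem_irrF.mp hχ)
    have h5 : (0 : ℤ) ≤ d χ := Int.natCast_nonneg _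
    nlinarith
  rw [h1] at h2
  have h4 : (2 : ℤ) = ∑ χ ∈ irrF G, l χ * d χ := by exact_mod_cast h2
  omega

/-- the structure around a positive multiplicity -/
lemma Data.others (D : Data θ δ l e) {χ₁ : G → ℂ} (hχ₁ : χ₁ ∈ Irr G) (hpos : 0 < l χ₁)
    {χ : G → ℂ} (hχ : χ ∈ Irr G) (hne : χ ≠ χ₁) (hne2 : χ ≠ dl δ χ₁) :
    l χ ^ 2 - l χ * e χ = 0 := by
  classical
  have hle : ∀ s : Finset (G → ℂ), s ⊆ irrF G → ∑ φ ∈ s, (l φ ^ 2 - l φ * e φ) ≤ 2 := by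
    intro s hs
    rw [← D.sum]
    exact Finset.sum_le_sum_of_subset_of_nonneg hs
      (fun φ hφ _ => D.nonneg φ (mem_irrF.mp hφ))
  have h0 := D.nonneg χ hχ
  rcases D.cases χ₁ hχ₁ with h | h | h
  · have h2 := hle {χ₁, dl δ χ₁, χ} (by
      intro φ hφ
      simp only [Finset.mem_insert, Finset.mem_singleton] at hφ
      rcases hφ with rfl | rfl | rfl
      · exact mem_irrF.mpr hχ₁
      · exact mem_irrF.mpr (dl_irr δ hχ₁)
      · exact mem_irrF.mpr hχ)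
    rw [Finset.sum_insert (by
      simp only [Finset.mem_insert, Finset.mem_singleton]
      rintro (h3 | h3)
      · exact h.1 h3.symm
      · exact hne h3.symm), Finset.sum_insert (by
      simp only [Finset.mem_singleton]
      exact fun h3 => hne2 h3.symm), Finset.sum_singleton, D.dual χ₁ hχ₁, h.2.2] at h2
    have h5 : e (dl δ χ₁) = 0 := by
      have h6 : dl δ (dl δ χ₁) ≠ dl δ χ₁ := by
        rw [dl_dl]; exact fun h7 => h.1 h7.symm
      rcases D.cases _ (dl_irr δ hχ₁) with h7 | h7 | h7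
      · exact h7.2.2
      · exact absurd h7.1 h6
      · exact absurd h7.1 h6
    rw [h5] at h2
    nlinarith
  · have h2 := hle {χ₁, χ} (by
      intro φ hφ
      simp only [Finset.mem_insert, Finset.mem_singleton] at hφ
      rcases hφ with rfl | rfl
      · exact mem_irrF.mpr hχ₁
      · exact mem_irrF.mpr hχ)
    rw [Finset.sum_insert (by
      simp only [Finset.mem_singleton]
      exact fun h3 => hne h3.symm), Finset.sum_singleton, h.2.2.1] at h2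
    obtain ⟨k, hk⟩ := h.2.2.2
    have h5 : 1 ≤ k := by omega
    rw [hk] at h2
    nlinarith
  · have h2 := hle {χ₁, χ} (by
      intro φ hφ
      simp only [Finset.mem_insert, Finset.mem_singleton] at hφ
      rcases hφ with rfl | rfl
      · exact mem_irrF.mpr hχ₁
      · exact mem_irrF.mpr hχ)
    rw [Finset.sum_insert (by
      simp only [Finset.mem_singleton]
      exact fun h3 => hne h3.symm), Finset.sum_singleton, h.2.2.1] at h2
    nlinarith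

/-- **Negative multiplicities.** A negative multiplicity is `-1` and belongs to a `δ`-symplectic
character. -/
theorem Data.neg (D : Data θ δ l e) (hV : Virt θ) (h1 : θ 1 = 2) {χ : G → ℂ} (hχ : χ ∈ Irr G)
    (hneg : l χ < 0) : l χ = -1 ∧ dl δ χ = χ ∧ fs δ χ = -1 ∧ ∃ k : ℕ, χ 1 = 2 * k := by
  obtain ⟨χ₁, hχ₁, hpos⟩ := D.exists_pos hV h1
  have hne : χ ≠ χ₁ := by rintro rfl; omega
  have hne2 : χ ≠ dl δ χ₁ := by
    rintro rfl
    rw [D.dual χ₁ hχ₁] at hneg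
    omega
  have h2 := D.others hχ₁ hpos hχ hne hne2
  have h3 : l χ * (l χ - e χ) = 0 := by linear_combination h2
  have h4 : l χ = e χ := by
    rcases mul_eq_zero.mp h3 with h | h
    · omega
    · omega
  rcases D.cases χ hχ with h | h | h
  · omega
  · omega
  · exact ⟨by omega, h.1, h.2.1, h.2.2.2⟩

/-- **The parity theorem at a double zero**, group-theoretic form. -/
theorem neg_mult (hV : Virt θ) (hS : IsSolHeilbronn θ) (h1 : θ 1 = 2) {δ : G →* ℂˣ}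
    (hδ : ∀ h, ((δ h : ℂˣ) : ℂ) = dd θ h) {χ : G → ℂ} (hχ : χ ∈ Irr G)
    (hneg : ¬ ∃ k : ℕ, pr θ χ = k) :
    pr θ χ = -1 ∧ dl δ χ = χ ∧ fs δ χ = -1 ∧ ∃ k : ℕ, χ 1 = 2 * k := by
  obtain ⟨l, e, D⟩ := exists_data hV hS h1 hδ
  have h2 : l χ < 0 := by
    by_contra hcon
    push Not at hcon
    apply hneg
    refine ⟨(l χ).toNat, ?_⟩
    rw [D.pr χ hχ]
    have : ((l χ).toNat : ℤ) = l χ := Int.toNat_of_nonneg hcon
    exact_mod_cast this.symm
  obtain ⟨h3, h4, h5, h6⟩ := D.neg hV h1 hχ h2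
  refine ⟨?_, h4, h5, h6⟩
  rw [D.pr χ hχ, h3]
  push_cast; ring

end main

end Pool.Agent.E8helper13.Par
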